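import Pool.Agent.H456R3.S.F15

set_option autoImplicit false

open MeasureTheory Metric Set Filter Topology Function
open scoped ENNReal NNReal InnerProductSpace

namespace Pool.Agent.Q171.Pot

open Pool.Agent.H456R3.S

variable {d k : ℕ}

theorem three_slabs {z : Pr d} (hz : H1 z) (i : Fin d) (F : Finset ℤ) :
    ∑ q ∈ F, ia (slab i (q : ℝ) (3/2)) z ≤ 3 * n2 z := by
  have h1 : ∀ q ∈ F, Integrable ((slab i (q : ℝ) (3/2)).indicator (fun x => z.1 x * z.1 x)) :=
    fun q _ => ia_int (slab_meas _ _ _) hz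
  unfold ia
  rw [← integral_finsetSum _ h1]
  have h2 : 3 * n2 z = ∫ x, 3 * (z.1 x * z.1 x) := by
    unfold n2
    rw [integral_const_mul]
  rw [h2]
  apply integral_mono (integrable_finset_sum _ h1) ((imul hz.mu hz.mu).const_mul 3)
  intro x
  simp only
  have hnn : 0 ≤ z.1 x * z.1 x := mul_self_nonneg _
  have hsub : ∀ q ∈ F, q ∉ ({round (x i) - 1, round (x i), round (x i) + 1} : Finset ℤ) →
      (slab i (q : ℝ) (3/2)).indicator (fun x => z.1 x * z.1 x) x = 0 := by
    intro q _ hq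
    apply indicator_of_notMem
    intro hmem
    apply hq
    have h3 : |x i - q| < 3/2 := hmem
    have h4 := abs_sub_round (x i)
    have h5 : |((round (x i) : ℤ) : ℝ) - q| < 2 := by
      calc |((round (x i) : ℤ) : ℝ) - q| = |(x i - q) - (x i - round (x i))| := by congr 1; ring
        _ ≤ |x i - q| + |x i - round (x i)| := abs_sub _ _
        _ < 2 := by linarith
    have h6 : |round (x i) - q| < 2 := by exact_mod_cast h5
    rw [abs_lt] at h6
    simp only [Finset.mem_insert, Finset.mem_singleton]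
    omega
  calc ∑ q ∈ F, (slab i (q : ℝ) (3/2)).indicator (fun x => z.1 x * z.1 x) x
      = ∑ q ∈ F ∩ {round (x i) - 1, round (x i), round (x i) + 1},
          (slab i (q : ℝ) (3/2)).indicator (fun x => z.1 x * z.1 x) x := by
        symm
        apply Finset.sum_subset Finset.inter_subset_left
        intro q hq1 hq2
        apply hsub q hq1
        intro hc
        exact hq2 (Finset.mem_inter.mpr ⟨hq1, hc⟩)
    _ ≤ ∑ q ∈ F ∩ {round (x i) - 1, round (x i), round (x i) + 1}, z.1 x * z.1 x := by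
        apply Finset.sum_le_sum
        intro q _
        exact indicator_le_self' (fun _ _ => hnn) x
    _ = ((F ∩ {round (x i) - 1, round (x i), round (x i) + 1} : Finset ℤ).card : ℝ) *
          (z.1 x * z.1 x) := by rw [Finset.sum_const, nsmul_eq_mul]
    _ ≤ 3 * (z.1 x * z.1 x) := by
        gcongr
        have : (F ∩ {round (x i) - 1, round (x i), round (x i) + 1} : Finset ℤ).card ≤ 3 :=
          (Finset.card_le_card Finset.inter_subset_right).trans Finset.card_le_three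
        exact_mod_cast this

/-- the number of thick slabs is bounded -/
theorem thick_card {U : Fin k → Pr d} (hU : ∀ j, H1 (U j)) (hn : ∀ j, n2 (U j) = 1)
    {ε0 : ℝ} (hε0 : 0 < ε0) (i : Fin d) (F : Finset ℤ)
    (hF : ∀ q ∈ F, ε0 < bb U (slab i (q : ℝ) (3/2))) : (F.card : ℝ) ≤ 3 * k / ε0 := by
  rw [le_div_iff₀ hε0]
  calc (F.card : ℝ) * ε0 = ∑ _q ∈ F, ε0 := by rw [Finset.sum_const, nsmul_eq_mul]
    _ ≤ ∑ q ∈ F, bb U (slab i (q : ℝ) (3/2)) := Finset.sum_le_sum fun q hq => (hF q hq).le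
    _ = ∑ j, ∑ q ∈ F, ia (slab i (q : ℝ) (3/2)) (U j) := by
        unfold bb
        exact Finset.sum_comm
    _ ≤ ∑ j : Fin k, 3 * n2 (U j) := Finset.sum_le_sum fun j _ => three_slabs (hU j) i F
    _ = 3 * k := by
        simp_rw [hn]
        rw [Finset.sum_const, Finset.card_univ, Fintype.card_fin, nsmul_eq_mul]
        ring

/-- the set of thick slabs is finite with bounded cardinality -/
theorem thick_finite {U : Fin k → Pr d} (hU : ∀ j, H1 (U j)) (hn : ∀ j, n2 (U j) = 1)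
    {ε0 : ℝ} (hε0 : 0 < ε0) (i : Fin d) :
    ∃ F : Finset ℤ, (F.card : ℝ) ≤ 3 * k / ε0 ∧ ∀ q : ℤ, q ∉ F →
      bb U (slab i (q : ℝ) (3/2)) ≤ ε0 := by
  set T : Set ℤ := {q | ε0 < bb U (slab i (q : ℝ) (3/2))} with hT
  have hfin : T.Finite := by
    by_contra hinf
    obtain ⟨F, hFT, hFc⟩ := (show T.Infinite from hinf).exists_subset_card_eq (⌊3 * k / ε0⌋₊ + 1)
    have h1 := thick_card hU hn hε0 i F (fun q hq => hFT hq)
    rw [hFc] at h1
    have h2 := Nat.lt_floor_add_one (3 * (k : ℝ) / ε0)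
    push_cast at h1
    linarith
  refine ⟨hfin.toFinset, thick_card hU hn hε0 i _ (fun q hq => ?_), fun q hq => ?_⟩
  · rw [Set.Finite.mem_toFinset] at hq; exact hq
  · rw [Set.Finite.mem_toFinset] at hq
    exact not_lt.mp hq

/-- the finiteness set is covered by boundedly many unit cubes: measurable version -/
theorem cover_meas (d : ℕ) (hk : 1 ≤ k) {p : ℝ} (hp0 : 0 < p) (hp1 : p ≤ 1) {Λ : ℝ} (hΛ : 0 ≤ Λ) :
    ∃ M : ℕ, ∀ (V : X d → ℝ≥0∞), Measurable V → ∫⁻ x, V x ^ (-p) ≤ 1 →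
      lamK k V ≤ ENNReal.ofReal Λ →
      (∀ W : X d → ℝ≥0∞, Measurable W → ∫⁻ x, W x ^ (-p) ≤ 1 → (∀ x, V x = ∞ → W x = ∞) →
        lamK k V ≤ lamK k W) →
      ∃ S : Finset (Fin d → ℤ), S.card ≤ M ∧
        ∀ᵐ x, V x ≠ ∞ → ∃ q ∈ S, ∀ i, |x i - q i| ≤ 1/2 := by
  obtain ⟨ε0, hε0, hse⟩ := slab_empty (k := k) d hk hp0 hp1 hΛ
  refine ⟨⌊3 * (k : ℝ) / ε0⌋₊ ^ d, fun V hV hV1 hl hopt => ?_⟩
  have hfin : lamK k V ≠ ∞ := ne_top_of_le_ne_top ENNReal.ofReal_ne_top hl
  set l := (lamK k V).toReal with hldef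
  have hl0 : 0 ≤ l := ENNReal.toReal_nonneg
  have hlam : lamK k V = ENNReal.ofReal l := (ENNReal.ofReal_toReal hfin).symm
  have hlΛ : l ≤ Λ := by
    rw [hlam] at hl
    exact (ENNReal.ofReal_le_ofReal_iff hΛ).1 hl
  obtain ⟨U, hU, hq⟩ := eigenframe hV hp0 hp1 hV1 hl0 hlam
  have hmain := hse V hV hV1 l hl0 hlΛ hlam hopt U hU hq
  have hn : ∀ j, n2 (U j : Pr d) = 1 := by
    intro j
    have := hU.orth j j
    rw [NN_self, if_pos rfl] at this
    exact this
  choose F hFc hF using fun i : Fin d =>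
    thick_finite (U := fun j => (U j : Pr d)) (fun j => HV.h1 _) hn hε0 i
  refine ⟨Fintype.piFinset F, ?_, ?_⟩
  · rw [Fintype.card_piFinset]
    calc ∏ i, (F i).card ≤ ∏ _i : Fin d, ⌊3 * (k : ℝ) / ε0⌋₊ := by
          apply Finset.prod_le_prod' fun i _ => Nat.le_floor (hFc i)
      _ = _ := by rw [Finset.prod_const, Finset.card_univ, Fintype.card_fin]
  · have hall : ∀ᵐ x : X d, ∀ (i : Fin d) (q : ℤ), q ∉ F i → |x i - q| ≤ 1/2 → V x = ∞ := by
      rw [ae_all_iff]; intro i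
      rw [ae_all_iff]; intro q
      by_cases hqF : q ∈ F i
      · exact Eventually.of_forall fun x h => absurd hqF h
      · filter_upwards [hmain i q (hF i q hqF)] with x hx _ using hx
    filter_upwards [hall] with x hx hxV
    refine ⟨fun i => round (x i), ?_, fun i => abs_sub_round (x i)⟩
    rw [Fintype.mem_piFinset]
    intro i
    by_contra hc
    exact hxV (hx i _ hc (abs_sub_round (x i)))

theorem lamK_congr {V W : X d → ℝ≥0∞} (h : V =ᵐ[volume] W) : lamK k V = lamK k W := by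
  have h1 : ∀ f : X d → ℝ≥0∞, ∫⁻ x, V x * f x = ∫⁻ x, W x * f x := fun f =>
    lintegral_congr_ae (by filter_upwards [h] with x hx; rw [hx])
  have h2 : ∀ f g : X d → ℝ≥0∞, ∫⁻ x, (f x + V x * g x) = ∫⁻ x, (f x + W x * g x) := fun f g =>
    lintegral_congr_ae (by filter_upwards [h] with x hx; rw [hx])
  unfold lamK
  simp_rw [h1, h2]

end Pool.Agent.Q171.Pot
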